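import Pool.Agent.W290.FrHex

set_option autoImplicit false

namespace Pool.Agent.Results.MP_6b1969_co.HexagonsEmbed

/-- the incidence graph of a point-line geometry -/
abbrev incidenceGraph {P L : Type} (I : P → L → Prop) : SimpleGraph (P ⊕ L) :=
  SimpleGraph.fromRel (fun x y : P ⊕ L => ∃ p l, x = Sum.inl p ∧ y = Sum.inr l ∧ I p l)

/-- a generalized hexagon: the incidence graph has diameter 6 and girth 12 -/
def IsGeneralizedHexagon {P L : Type} (I : P → L → Prop) : Prop :=
  (incidenceGraph I).ediam = 6 ∧ (incidenceGraph I).egirth = 12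

/-- the geometry `I` contains the geometry `I₀` as a subgeometry: there are a set `A` of points
and a set `B` of lines of `I` which, with the inherited incidence, form a geometry isomorphic
to `I₀` -/
def ContainsAsSubgeometry {P L P₀ L₀ : Type} (I : P → L → Prop) (I₀ : P₀ → L₀ → Prop) : Prop :=
  ∃ (A : Set P) (B : Set L) (e : A ≃ P₀) (f : B ≃ L₀), ∀ (a : A) (b : B),
    I a.1 b.1 ↔ I₀ (e a) (f b)

/-- Every finite generalized hexagon `Δ` (for instance `H(q)` or `H(q)^D`) is contained as a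
subgeometry in a semi-finite generalized hexagon, with exactly `s + 1` points on each line, for
every sufficiently large `s`, and infinitely many lines through each point. -/
theorem result (P₀ L₀ : Type) [Finite P₀] [Finite L₀] (I₀ : P₀ → L₀ → Prop)
    (hΔ : IsGeneralizedHexagon I₀) (s : ℕ) (hs : Nat.card P₀ + 4 ≤ s) :
    ∃ (P L : Type) (I : P → L → Prop), IsGeneralizedHexagon I ∧
      (∀ l, {p | I p l}.Finite ∧ {p | I p l}.ncard = s + 1) ∧ (∀ p, {l | I p l}.Infinite) ∧
      ContainsAsSubgeometry I I₀ := by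
  obtain ⟨P, L, I, h1, h2, h3, h4, φ, ψ, h5, h6, h7⟩ :=
    Pool.Agent.W290.Fr.embed_hexagon I₀ hΔ.1 hΔ.2 hs
  refine ⟨P, L, I, ⟨h1, h2⟩, h3, h4, Set.range φ, Set.range ψ,
    (Equiv.ofInjective φ h5).symm, (Equiv.ofInjective ψ h6).symm, ?_⟩
  rintro ⟨_, p, rfl⟩ ⟨_, l, rfl⟩
  have e1 : (Equiv.ofInjective φ h5).symm ⟨φ p, p, rfl⟩ = p := by
    rw [Equiv.symm_apply_eq]; rfl
  have e2 : (Equiv.ofInjective ψ h6).symm ⟨ψ l, l, rfl⟩ = l := by
    rw [Equiv.symm_apply_eq]; rfl
  rw [e1, e2]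
  exact h7 p l

end Pool.Agent.Results.MP_6b1969_co.HexagonsEmbed
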